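import Pool.Agent.Y841.PD.Sys

set_option autoImplicit false

open Filter Topology MeasureTheory Finset

namespace Pool.Agent.Results.MP_e30989_nt.VanishingMean

open Pool.Agent.Y841.PD

/-- Every multiplicative `f` with values in the closed unit disc and `∑ (1 - |f p|) / p = ∞` has exactly one
Furstenberg system for Cesàro averages, the point mass at the zero sequence; it is completely deterministic and
not pretentious. Such `f` exist, so Q1 has a negative answer. -/
theorem result :
    (∀ f : ℕ → U, IsMult f → (¬ Summable fun p : Nat.Primes => (1 - ‖(f p : ℂ)‖) / ((p : ℕ) : ℝ)) →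
      (∀ μ : Measure X, IsFurstenbergSystem f μ ↔ μ = Measure.dirac fun _ => ⟨0, by simp⟩) ∧
      CompletelyDeterministic f ∧ ¬ Pretentious f) ∧
    ¬ (∀ f : ℕ → U, IsMult f → CompletelyDeterministic f → Pretentious f) := by
  have key : ∀ f : ℕ → U, IsMult f → (¬ Summable fun p : Nat.Primes => (1 - ‖(f p : ℂ)‖) / ((p : ℕ) : ℝ)) →
      (∀ μ : Measure X, IsFurstenbergSystem f μ ↔ μ = Measure.dirac zeroX) ∧
      CompletelyDeterministic f ∧ ¬ Pretentious f := by
    intro f hf hdiv
    refine ⟨furst_iff hf hdiv, fun μ hμ => ?_, not_pretentious hdiv⟩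
    rw [(furst_iff hf hdiv μ).1 hμ]
    exact ks_dirac
  refine ⟨key, fun h => ?_⟩
  obtain ⟨f, hf, hd⟩ : ∃ f : ℕ → U, IsMult f ∧
      ¬ Summable fun p : Nat.Primes => (1 - ‖(f p : ℂ)‖) / ((p : ℕ) : ℝ) := by
    refine ⟨fun n => if n = 1 then ⟨1, by simp⟩ else ⟨0, by simp⟩, ⟨by simp, ?_⟩, ?_⟩
    · intro m n hm hn _
      by_cases h1 : m = 1
      · by_cases h2 : n = 1
        · simp [h1, h2]
        · simp [h1, h2]
      · have h3 : m * n ≠ 1 := fun h => h1 (Nat.eq_one_of_mul_eq_one_right h)
        simp [h1, h3]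
    · intro hs
      apply Nat.Primes.not_summable_one_div
      refine hs.congr fun p => ?_
      have : (p : ℕ) ≠ 1 := p.2.one_lt.ne'
      simp [this]
  obtain ⟨_, h2, h3⟩ := key f hf hd
  exact h3 (h f hf h2)

end Pool.Agent.Results.MP_e30989_nt.VanishingMean
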